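import Pool.Agent.Lib.MP_4fd693_gt.Force

namespace Pool.Agent.Results.MP_4fd693_gt.ConsistentNotAlphaRealcompact

open Pool.Agent.Lib.MP_4fd693_gt

/-- (1) Some linear order `Ω` and the non-empty poset `Rows Ω` of the countable partial functions
from `Ω` to the power set of `Ω`: every condition forces that `Ω` is an uncountable well-order with
countable initial segments on which diamond holds.  (2) If diamond holds for such a well-order then
there is a weakly first countable compact Hausdorff space that is not hereditarily
alpha-realcompact. -/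
theorem result :
    (∃ (Ω : Type) (_ : LinearOrder Ω), Nonempty (Rows Ω) ∧ ∀ p : Rows Ω, fDiaOn (Rows Ω) Ω p) ∧
    ∀ (Ω : Type) [LinearOrder Ω], DiaOn Ω → ∃ (X : Type) (_ : TopologicalSpace X), T2Space X ∧
      CompactSpace X ∧ WeaklyFirstCountable X ∧ ∃ s : Set X, ¬ AlphaRealcompact s :=
  ⟨exists_forces, fun _ _ hD => of_diaOn hD⟩

end Pool.Agent.Results.MP_4fd693_gt.ConsistentNotAlphaRealcompact
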