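import Mathlib
import Pool.Agent.Lib.MP_4fd693_gt.Defs
import Pool.Agent.Lib.MP_4fd693_gt.Theta

set_option autoImplicit false

namespace Pool.Agent.Results.MP_4fd693_gt.NotWeaklyThetaRefinable

open Pool.Agent.Lib.MP_4fd693_gt

/-- There is a weakly first countable (even first countable) compact Hausdorff space with a
subspace that is not weakly theta-refinable. -/
theorem result : ∃ (X : Type) (_ : TopologicalSpace X), T2Space X ∧ CompactSpace X ∧
    FirstCountableTopology X ∧ WeaklyFirstCountable X ∧
    ∃ s : Set X, ¬ WeaklyThetaRefinable s := by
  obtain ⟨L, hL⟩ := exists_good_unitInterval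
  exact ⟨L.Z, inferInstance, inferInstance, inferInstance, inferInstance,
    weaklyFirstCountable_of_firstCountable L.Z, hL.exists_subspace not_countable_unitInterval⟩

end Pool.Agent.Results.MP_4fd693_gt.NotWeaklyThetaRefinable
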